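import Pool.Agent.Helper81.Sus3.Goals
import Pool.Agent.Helper81.Sus2.LSW

/-!
# Sustained space, any time: the functions of the machine on numbers are computed in linear space
-/

namespace Pool.Agent.Helper9.Sus3

open Pool.Agent.Helper65.LinSpace Pool.Agent.Helper78.Mpc Pool.Agent.Helper28.Ram
  Pool.Agent.Helper81.Sus2 Pool.Agent.Helper28.Sus Finset
open Pool.Agent.Helper59.Ram (LS_accN)
open Pool.Agent.Helper81.Sus2H56
open Pool.Agent.Helper81.Sus3

section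

variable {α : Type} [Ctx α] {P : α → Prm} {C : α → ℕ}

theorem ls_vF (h : LSP P C) {d p' a Q v : α → ℕ} (hd : LS d) (hp' : LS p') (ha : LS a)
    (hQ : LS Q) (hv : LS v) :
    LS fun z => vF (P z) (d z) (p' z) (a z) (Q z) (v z) := by
  unfold vF
  exact LS.ifz hd (LS_accN (ls_dq h hQ)) (LS.mul (LS.eq01 (ls_dq h hQ) (ls_cq h hd))
    (LS.mul (LS.ifz (LS.lt01 h.u hp') (LS.eq01 (ls_dp h hQ) hp') (LS.const 1))
      (LS.ifz ha (LS.const 1) (LS.eq01 hv (ls_cl h hd ha)))))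

theorem ls_vN (h : LSP P C) {τ Y d p' a Q v : α → ℕ} (hτ : LS τ) (hY : LS Y) (hd : LS d)
    (hp' : LS p') (ha : LS a) (hQ : LS Q) (hv : LS v) :
    LS fun z => vN (P z) (τ z) (Y z) (d z) (p' z) (a z) (Q z) (v z) := by
  unfold vN
  have hdq := ls_dq h hQ
  have hdp := ls_dp h hQ
  have hdt := ls_dt h hQ
  have hN := ls_fN h hdq (LS.dig (LS.const 2) hY hdp) hv
  have hK := ls_fK h hdq
  exact LS.capN h.V (LS.ifz (LS.lt01 (LS.const 1) hQ) hQ (LS.ifz (LS.eq01 hdt hτ)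
    (LS.ifz (LS.mul (ls_fA h hdq) hN) (LS.const 0)
      (LS.ifz (LS.mul hK (LS.eq01 hdp h.u))
        (ls_enc h hN (LS.add hdp hK) (LS.add hdt (LS.const 1))) (LS.const 0)))
    (ls_vF h hd hp' ha hQ hv)))

theorem ls_v0 (h : LSP P C) {c p : α → ℕ} (hc : LS c) (hp : LS p) :
    LS fun z => v0 (P z) (c z) (p z) := by
  unfold v0
  exact LS.capN h.V (ls_enc h (ls_cq h hc) hp (LS.const 0))

end

theorem lsw : Pool.Agent.Helper81.Sus3.LSW_stmt := by
  intro α _ P C c p d p' Y τ a h hc hp hd hp' hY hτ ha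
  have p1 : LS fun z : α × ℕ => z.1 := LS.fst
  have p2 : LS fun z : α × ℕ × ℕ => z.1 := LS.fst
  have p3 : LS fun z : α × ℕ × ℕ × ℕ => z.1 := LS.fst
  have h1 := lsp_comp h p1
  have h2 := lsp_comp h p2
  have h3 := lsp_comp h p3
  refine ⟨?_, ?_, ?_, ?_, ls_v0 h hc hp, ?_, ls_cz h⟩
  · exact ls_wA h1 (LS.comp (g := τ) hτ p1) (LS.comp (g := a) ha p1) LS.snd
  · exact ls_vN h2 (LS.comp (g := τ) hτ p2) (LS.comp (g := Y) hY p2) (LS.comp (g := d) hd p2)
      (LS.comp (g := p') hp' p2) (LS.comp (g := a) ha p2) (by fun_prop) (by fun_prop)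
  · exact ls_wQ h1 LS.snd
  · exact ls_wW h3 (by fun_prop) (by fun_prop) (by fun_prop)
  · exact ls_cm h1 (LS.comp (g := c) hc p1) LS.snd

end Pool.Agent.Helper9.Sus3
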